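import Mathlib
import Pool.Agent.helper98.DpMain

/-!
# Infinite strong clusters in potential-threshold directed percolation on `ℤ^d`

Independent uniform potentials `U_v`, `v ∈ ℤ^d`; for nearest neighbours `a, b` the directed edge
`a → b` is open iff `U_b < U_a + ε`.  For every `d ≥ 1` and every real `ε`, the number of infinite
strongly connected clusters is almost surely equal to a constant, which is `0`, `1` or `∞`.
-/

set_option autoImplicit false

open MeasureTheory ProbabilityTheory

namespace Pool.Agent.Results.MP_7d85da_pr.ZeroOneInfinity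

variable {d : ℕ}

/-- `a` and `b` are nearest neighbours of `ℤ^d`: their `ℓ¹` distance is `1`. -/
def Neighbours (a b : Fin d → ℤ) : Prop := ∑ i, |a i - b i| = 1

/-- The directed edge `a → b` is open for the potentials `U` and the threshold `ε`. -/
def OpenEdge (ε : ℝ) (U : (Fin d → ℤ) → ℝ) (a b : Fin d → ℤ) : Prop :=
  Neighbours a b ∧ U b < U a + ε

/-- `p 0 = a, p 1, ..., p n = b` is an open directed path of distinct vertices from `a` to `b`. -/
def IsOpenPath (ε : ℝ) (U : (Fin d → ℤ) → ℝ) (a b : Fin d → ℤ) (n : ℕ)
    (p : ℕ → Fin d → ℤ) : Prop :=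
  p 0 = a ∧ p n = b ∧ (∀ i < n, OpenEdge ε U (p i) (p (i + 1))) ∧ Set.InjOn p (Set.Iic n)

/-- There is an open directed path from `a` to `b`. -/
def Connected (ε : ℝ) (U : (Fin d → ℤ) → ℝ) (a b : Fin d → ℤ) : Prop :=
  ∃ (n : ℕ) (p : ℕ → Fin d → ℤ), IsOpenPath ε U a b n p

/-- The strongly connected cluster of `a`. -/
def strongCluster (ε : ℝ) (U : (Fin d → ℤ) → ℝ) (a : Fin d → ℤ) : Set (Fin d → ℤ) :=
  {b | Connected ε U a b ∧ Connected ε U b a}

/-- The number (possibly `⊤`) of infinite strongly connected clusters. -/
noncomputable def numInfClusters (ε : ℝ) (U : (Fin d → ℤ) → ℝ) : ℕ∞ :=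
  Set.encard {C : Set (Fin d → ℤ) | C.Infinite ∧ ∃ a, C = strongCluster ε U a}

open Pool.Agent.helper98.Dp

/-- A shortest walk visits distinct vertices. -/
lemma connected_iff (ε : ℝ) (U : (Fin d → ℤ) → ℝ) (a b : Fin d → ℤ) :
    Connected ε U a b ↔ Conn ε U a b := by
  classical
  constructor
  · rintro ⟨n, p, h0, hn, hstep, -⟩
    have key : ∀ i ≤ n, Conn ε U a (p i) := by
      intro i
      induction i with
      | zero => intro _; rw [h0]; exact Relation.ReflTransGen.refl
      | succ i ih =>
        intro hi
        exact (ih (by omega)).tail (hstep i (by omega))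
    rw [← hn]
    exact key n le_rfl
  · intro h
    have hex : ∃ n : ℕ, ∃ p : ℕ → Fin d → ℤ, p 0 = a ∧ p n = b ∧
        ∀ i < n, OpenEdge ε U (p i) (p (i + 1)) := by
      unfold Conn at h
      induction h with
      | refl => exact ⟨0, fun _ => a, rfl, rfl, fun i hi => absurd hi (Nat.not_lt_zero i)⟩
      | @tail b c _ hbc ih =>
        obtain ⟨n, p, h0, hn, hstep⟩ := ih
        refine ⟨n + 1, fun i => if i ≤ n then p i else c, ?_, ?_, ?_⟩
        · simp only [Nat.zero_le, if_true]; exact h0
        · simp only [Nat.not_succ_le_self, if_false]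
        · intro i hi
          rcases Nat.lt_succ_iff_lt_or_eq.1 hi with h1 | h1
          · simp only [h1.le, if_true, Nat.succ_le_iff.2 h1]
            exact hstep i h1
          · subst h1
            simp only [le_refl, if_true, Nat.not_succ_le_self, if_false, hn]
            exact hbc
    obtain ⟨p, h0, hn, hstep⟩ := Nat.find_spec hex
    have hmin := fun m (hm : m < Nat.find hex) => Nat.find_min hex hm
    set n := Nat.find hex with hndef
    refine ⟨n, p, h0, hn, hstep, ?_⟩
    have hord : ∀ i j : ℕ, i < j → j ≤ n → p i ≠ p j := by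
      intro i j hij hj hpij
      apply hmin (n - (j - i)) (by omega)
      refine ⟨fun m => if m ≤ i then p m else p (m + (j - i)), ?_, ?_, ?_⟩
      · simp only [Nat.zero_le, if_true]; exact h0
      · by_cases hle : n - (j - i) ≤ i
        · have h1 : n = j := by omega
          have h2 : n - (j - i) = i := by omega
          simp only [h2, le_refl, if_true]
          rw [hpij, ← h1]; exact hn
        · simp only [hle, if_false]
          have h2 : n - (j - i) + (j - i) = n := by omega
          rw [h2]; exact hn
      · intro m hm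
        by_cases h1 : m < i
        · simp only [h1.le, if_true, Nat.succ_le_iff.2 h1]
          exact hstep m (by omega)
        · by_cases h2 : m = i
          · subst h2
            simp only [le_refl, if_true, Nat.not_succ_le_self, if_false]
            have h3 : m + 1 + (j - m) = j + 1 := by omega
            rw [h3, hpij]
            exact hstep j (by omega)
          · have h3 : ¬ m ≤ i := by omega
            have h4 : ¬ m + 1 ≤ i := by omega
            simp only [h3, h4, if_false]
            have h5 : m + 1 + (j - i) = m + (j - i) + 1 := by omega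
            rw [h5]
            exact hstep (m + (j - i)) (by omega)
    intro i hi j hj hpij
    rcases Nat.lt_trichotomy i j with h1 | h1 | h1
    · exact absurd hpij (hord i j h1 hj)
    · exact h1
    · exact absurd hpij.symm (hord j i h1 hi)

lemma numInfClusters_eq (ε : ℝ) (U : (Fin d → ℤ) → ℝ) : numInfClusters ε U = N ε U := by
  have h : ∀ a, strongCluster ε U a = clu ε U a := by
    intro a
    ext b
    simp only [strongCluster, clu, Set.mem_ofPred_eq, connected_iff]
  unfold numInfClusters N
  simp only [h]

/-- **Theorem.** Let `d ≥ 1`, let `ε` be a real number and let `(U_v)`, `v ∈ ℤ^d`, be independent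
and uniform on `[0,1]`.  Then the number of infinite strongly connected clusters is almost surely
equal to a constant belonging to `{0, 1, ∞}`. -/
theorem result {d : ℕ} (hd : 1 ≤ d) (ε : ℝ) {Ω : Type*} [MeasurableSpace Ω] (P : Measure Ω)
    [IsProbabilityMeasure P] (U : (Fin d → ℤ) → Ω → ℝ) (hmeas : ∀ v, Measurable (U v))
    (hindep : iIndepFun U P) (hunif : ∀ v, P.map (U v) = volume.restrict (Set.Icc (0 : ℝ) 1)) :
    ∃ n ∈ ({0, 1, ⊤} : Set ℕ∞), ∀ᵐ ω ∂P, numInfClusters ε (fun v => U v ω) = n := by
  have hmap : P.map (fun ω v => U v ω) = PP unif d := by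
    rw [hindep.map_fun_eq_infinitePi_map hmeas]
    simp only [hunif]
  have hmeas' : Measurable (fun ω v => U v ω) := measurable_pi_lambda _ hmeas
  have htr : ∀ k : ℕ, P {ω | numInfClusters ε (fun v => U v ω) = k}
      = PP unif d {V | N ε V = k} := by
    intro k
    rw [← hmap, Measure.map_apply hmeas' (measurableSet_N_eq ε k)]
    congr 1
    ext ω
    simp only [Set.mem_ofPred_eq, Set.mem_preimage, numInfClusters_eq]
  have h01 : ∀ k : ℕ, PP unif d {V : (Fin d → ℤ) → ℝ | N ε V = k} = 0 ∨
      PP unif d {V : (Fin d → ℤ) → ℝ | N ε V = k} = 1 := by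
    intro k
    apply zero_one unif (by omega) (measurableSet_N_eq ε k)
    intro t
    ext V
    simp only [Set.mem_preimage, Set.mem_ofPred_eq, N_sh]
  have hae : ∀ k : ℕ, PP unif d {V : (Fin d → ℤ) → ℝ | N ε V = k} = 1 →
      ∀ᵐ ω ∂P, numInfClusters ε (fun v => U v ω) = k := by
    intro k hk
    have h1 : ∀ᵐ V ∂(PP unif d), V ∈ {V : (Fin d → ℤ) → ℝ | N ε V = k} := by
      rw [ae_iff]
      have h2 : {V : (Fin d → ℤ) → ℝ | V ∉ {V : (Fin d → ℤ) → ℝ | N ε V = k}}
          = {V : (Fin d → ℤ) → ℝ | N ε V = k}ᶜ := rfl
      rw [h2, prob_compl_eq_zero_iff (measurableSet_N_eq ε k)]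
      exact hk
    rw [← hmap] at h1
    have h2 := (ae_map_iff hmeas'.aemeasurable (measurableSet_N_eq ε k)).1 h1
    filter_upwards [h2] with ω hω
    rw [numInfClusters_eq]
    exact hω
  rcases h01 0 with h0 | h0
  · rcases h01 1 with h1 | h1
    · refine ⟨⊤, by simp, ?_⟩
      have hall : ∀ k : ℕ, ∀ᵐ ω ∂P, numInfClusters ε (fun v => U v ω) ≠ k := by
        intro k
        rw [ae_iff]
        simp only [ne_eq, not_not]
        rw [htr k]
        by_cases hk0 : k = 0
        · rw [hk0]; exact h0
        · by_cases hk1 : k = 1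
          · rw [hk1]; exact h1
          · exact main_prod (by omega) ε k (by omega)
      filter_upwards [ae_all_iff.2 hall] with ω hω
      by_contra hcon
      obtain ⟨k, hk⟩ := ENat.ne_top_iff_exists.1 hcon
      exact hω k hk.symm
    · exact ⟨1, by simp, by simpa using hae 1 h1⟩
  · exact ⟨0, by simp, by simpa using hae 0 h0⟩

end Pool.Agent.Results.MP_7d85da_pr.ZeroOneInfinity
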